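import Pool.Graph.R_seed8.V11316.J1

/-!
Evaluation of the sum at a primitive root of unity: the value of each term is real, and the signs
of the terms are known.
-/

set_option autoImplicit false

open Finset Polynomial

namespace KS6_51.QT

open V11307.Q V11316 V11316.Per V11316.M5ca

noncomputable section

/-- the value of a rational function at a complex number -/
def ev (z : ℂ) (x : RatFunc ℚ) : ℂ := aeval z x.num / aeval z x.denom

variable {n : ℕ} {z : ℂ}

theorem ne_of_cop (hz : aeval z (cyclotomic n ℚ) = 0) {b : ℚ[X]}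
    (hb : IsCoprime b (cyclotomic n ℚ)) : aeval z b ≠ 0 := by
  obtain ⟨u, v, huv⟩ := hb
  intro h0
  have := congrArg (aeval z) huv
  simp [h0, hz] at this

theorem ev_eq {x : RatFunc ℚ} {a b : ℚ[X]} (hb0 : aeval z b ≠ 0) (h : x * φ b = φ a) :
    ev z x = aeval z a / aeval z b := by
  have h2 : φ x.num = x * φ x.denom := by
    have := RatFunc.num_div_denom x
    rw [div_eq_iff (φ_ne x.denom_ne_zero)] at this
    exact this
  have h3 : x.num * b = a * x.denom := by
    apply φ_inj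
    rw [map_mul, map_mul, h2, ← h]; ring
  have h4 : x.denom ∣ b := by
    have : x.denom ∣ x.num * b := ⟨a, by rw [h3]; ring⟩
    exact (RatFunc.isCoprime_num_denom x).symm.dvd_of_dvd_mul_left this
  have h5 : aeval z x.denom ≠ 0 := by
    obtain ⟨c, hc⟩ := h4
    intro h0
    apply hb0
    rw [hc, map_mul, h0, zero_mul]
  have h6 := congrArg (aeval z) h3
  rw [map_mul, map_mul] at h6
  rw [ev, div_eq_div_iff h5 hb0, h6]

theorem ev_φ (a : ℚ[X]) : ev z (φ a) = aeval z a := by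
  rw [ev_eq (a := a) (b := 1) (by simp) (by simp)]
  simp

theorem ev_zero : ev z 0 = 0 := by
  have := ev_φ (z := z) 0
  simpa using this

theorem ev_one : ev z 1 = 1 := by
  have := ev_φ (z := z) 1
  simpa using this

theorem ev_intCast (e : ℤ) : ev z (e : RatFunc ℚ) = e := by
  have := ev_φ (z := z) (e : ℚ[X])
  rw [map_intCast, map_intCast] at this
  exact this

theorem ev_add (hz : aeval z (cyclotomic n ℚ) = 0) {x y : RatFunc ℚ} (hx : x ∈ R n)
    (hy : y ∈ R n) : ev z (x + y) = ev z x + ev z y := by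
  obtain ⟨a, b, hb, hb0, hx⟩ := hx
  obtain ⟨c, d, hd, hd0, hy⟩ := hy
  have h1 := ne_of_cop hz hb
  have h2 := ne_of_cop hz hd
  rw [ev_eq h1 hx, ev_eq h2 hy, ev_eq (a := a * d + c * b) (b := b * d)
    (by rw [map_mul]; exact mul_ne_zero h1 h2)
    (by rw [map_mul, map_add, map_mul, map_mul, ← hx, ← hy]; ring)]
  simp only [map_add, map_mul]
  field_simp

theorem ev_mul (hz : aeval z (cyclotomic n ℚ) = 0) {x y : RatFunc ℚ} (hx : x ∈ R n)
    (hy : y ∈ R n) : ev z (x * y) = ev z x * ev z y := by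
  obtain ⟨a, b, hb, hb0, hx⟩ := hx
  obtain ⟨c, d, hd, hd0, hy⟩ := hy
  have h1 := ne_of_cop hz hb
  have h2 := ne_of_cop hz hd
  rw [ev_eq h1 hx, ev_eq h2 hy, ev_eq (a := a * c) (b := b * d)
    (by rw [map_mul]; exact mul_ne_zero h1 h2)
    (by rw [map_mul, map_mul, ← hx, ← hy]; ring)]
  simp only [map_mul]
  field_simp

theorem ev_I (hz : aeval z (cyclotomic n ℚ) = 0) {x : RatFunc ℚ} (hx : I n 1 x) :
    ev z x = 0 := by
  obtain ⟨y, hy, rfl⟩ := hx
  rw [pow_one, ev_mul hz (φ_mem _) hy, ev_φ, hz, zero_mul]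

theorem ev_sub (hz : aeval z (cyclotomic n ℚ) = 0) {x y : RatFunc ℚ} (hx : x ∈ R n)
    (hy : y ∈ R n) : ev z (x - y) = ev z x - ev z y := by
  have h := ev_add hz (sub_mem hx hy) hy
  rw [sub_add_cancel] at h
  rw [h]; ring

theorem ev_congr (hz : aeval z (cyclotomic n ℚ) = 0) {x y : RatFunc ℚ} (hy : y ∈ R n)
    (h : I n 1 (x - y)) : ev z x = ev z y := by
  have hx : x ∈ R n := by
    have := add_mem h.mem hy
    rwa [sub_add_cancel] at this
  have h2 := ev_sub hz hx hy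
  rw [ev_I hz h] at h2
  exact (sub_eq_zero.1 h2.symm)

theorem ev_sum (hz : aeval z (cyclotomic n ℚ) = 0) {ι : Type*} {s : Finset ι}
    {f : ι → RatFunc ℚ} (h : ∀ i ∈ s, f i ∈ R n) :
    ev z (∑ i ∈ s, f i) = ∑ i ∈ s, ev z (f i) := by
  classical
  induction s using Finset.induction_on with
  | empty => simp [ev_zero]
  | insert a s ha ih =>
    rw [sum_insert ha, sum_insert ha, ev_add hz (h a (mem_insert_self _ _))
      (sum_mem fun i hi => h i (mem_insert_of_mem hi)), ih fun i hi => h i (mem_insert_of_mem hi)]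

theorem ev_prod (hz : aeval z (cyclotomic n ℚ) = 0) {ι : Type*} {s : Finset ι}
    {f : ι → RatFunc ℚ} (h : ∀ i ∈ s, f i ∈ R n) :
    ev z (∏ i ∈ s, f i) = ∏ i ∈ s, ev z (f i) := by
  classical
  induction s using Finset.induction_on with
  | empty => simp [ev_one]
  | insert a s ha ih =>
    rw [prod_insert ha, prod_insert ha, ev_mul hz (h a (mem_insert_self _ _))
      (prod_mem fun i hi => h i (mem_insert_of_mem hi)), ih fun i hi => h i (mem_insert_of_mem hi)]

theorem ev_pow (hz : aeval z (cyclotomic n ℚ) = 0) {x : RatFunc ℚ} (hx : x ∈ R n) (k : ℕ) :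
    ev z (x ^ k) = ev z x ^ k := by
  induction k with
  | zero => simp [ev_one]
  | succ k ih => rw [pow_succ, pow_succ, ev_mul hz (pow_mem hx k) hx, ih]

theorem ev_U (hz : aeval z (cyclotomic n ℚ) = 0) {x : RatFunc ℚ} (hx : IsU n x) :
    ev z x⁻¹ = (ev z x)⁻¹ := by
  have h := ev_mul hz hx.2.1 hx.2.2
  rw [mul_inv_cancel₀ hx.1, ev_one] at h
  exact eq_inv_of_mul_eq_one_right h.symm

theorem ev_q : ev z (q : RatFunc ℚ) = z := by
  have := ev_φ (z := z) X
  rwa [φ_X, aeval_X] at this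

theorem ev_qz (hn : 0 < n) (hz : aeval z (cyclotomic n ℚ) = 0) (e : ℤ) :
    ev z (q ^ e : RatFunc ℚ) = z ^ e := by
  rcases e with e | e
  · simp only [Int.ofNat_eq_natCast, zpow_natCast]
    rw [ev_pow hz q_mem, ev_q]
  · rw [zpow_negSucc, zpow_negSucc, ev_U hz (qUn hn _), ev_pow hz q_mem, ev_q]

theorem ev_poch (hn : 0 < n) (hz : aeval z (cyclotomic n ℚ) = 0) (b a : ℤ) (k : ℕ) :
    ev z (poch (q ^ b : RatFunc ℚ) (q ^ a) k) = ∏ i ∈ range k, (1 - z ^ (a + b * i)) := by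
  rw [poch, ev_prod hz]
  · refine prod_congr rfl fun i _ => ?_
    rw [qz_pow, ← zpow_add₀ q_ne, ev_sub hz (one_mem _) (qz_mem hn _), ev_one, ev_qz hn hz]
  · intro i _
    exact sub_mem (one_mem _) (mul_mem (qz_mem hn _) (pow_mem (qz_mem hn _) _))

theorem ev_WW (hn : 0 < n) (hz : aeval z (cyclotomic n ℚ) = 0) (hz1 : z ^ n = 1) {a : ℕ}
    (hc : Cop n a) (t : ℤ) {k : ℕ} (hk : k < n) :
    ev z (WW n a t k) = ∏ i ∈ range k, ((1 - z ^ (a * (2 * i + 1))) / (1 - z ^ (2 * a * (i + 1)))) := by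
  have hz0 : z ≠ 0 := by
    rintro rfl
    rw [zero_pow hn.ne'] at hz1
    exact zero_ne_one hz1
  have hper : ∀ (e t : ℤ), z ^ (e + n * t) = z ^ e := by
    intro e t
    rw [zpow_add₀ hz0, zpow_mul, zpow_natCast, hz1, one_zpow, mul_one]
  rw [WW, div_eq_mul_inv, ev_mul hz (poch_mem hn _ _ _) (WWden_U hn hc t hk).2.2,
    ev_U hz (WWden_U hn hc t hk), ev_poch hn hz, ev_poch hn hz, ← div_eq_mul_inv,
    ← Finset.prod_div_distrib]
  refine prod_congr rfl fun i _ => ?_
  have e1 : (a + n * t + ((2 * a : ℕ) : ℤ) * i : ℤ) = ((a * (2 * i + 1) : ℕ) : ℤ) + n * t := by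
    push_cast; ring
  have e2 : (2 * a + n * t + ((2 * a : ℕ) : ℤ) * i : ℤ) = ((2 * a * (i + 1) : ℕ) : ℤ) + n * t := by
    push_cast; ring
  rw [e1, e2, hper, hper, zpow_natCast, zpow_natCast]

/-! ### the root of unity -/

/-- `e^{πi/n}` -/
def w (n : ℕ) : ℂ := Complex.exp (Real.pi * Complex.I / n)

/-- `e^{2πi/n}` -/
def ζ (n : ℕ) : ℂ := Complex.exp (2 * Real.pi * Complex.I / n)

/-- `sin (mπ/n)` -/
def sn (n m : ℕ) : ℝ := Real.sin (m * Real.pi / n)

theorem ζ_eq : ζ n = w n ^ 2 := by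
  rw [ζ, w, ← Complex.exp_nat_mul]
  congr 1
  push_cast; ring

theorem ζ_root (hn : 0 < n) : aeval (ζ n) (cyclotomic n ℚ) = 0 := by
  have h := (Complex.isPrimitiveRoot_exp n hn.ne').isRoot_cyclotomic hn
  have h2 : eval (ζ n) (cyclotomic n ℂ) = 0 := h
  rw [← map_cyclotomic n (algebraMap ℚ ℂ), eval_map_algebraMap] at h2
  exact h2

theorem ζ_pow (hn : 0 < n) : ζ n ^ n = 1 := (Complex.isPrimitiveRoot_exp n hn.ne').pow_eq_one

theorem w_ne : w n ≠ 0 := Complex.exp_ne_zero _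

theorem one_sub_ζ (m : ℕ) : 1 - ζ n ^ m = -(2 * Complex.I * (sn n m : ℂ)) * w n ^ m := by
  have h1 : w n ^ m = Complex.exp ((((m : ℝ) * Real.pi / n : ℝ) : ℂ) * Complex.I) := by
    rw [w, ← Complex.exp_nat_mul]
    congr 1
    push_cast; ring
  have h2 : ζ n ^ m = w n ^ m * w n ^ m := by rw [ζ_eq, ← pow_mul, ← pow_add]; congr 1; ring
  rw [h2, h1, sn, Complex.ofReal_sin]
  set x : ℂ := (((m : ℝ) * Real.pi / n : ℝ) : ℂ) with hx
  have h3 : Complex.exp (-x * Complex.I) * Complex.exp (x * Complex.I) = 1 := by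
    rw [← Complex.exp_add, ← add_mul, neg_add_cancel, zero_mul, Complex.exp_zero]
  have h4 : Complex.sin x = (Complex.exp (-x * Complex.I) - Complex.exp (x * Complex.I)) * Complex.I / 2 := rfl
  rw [h4]
  have h5 : Complex.I * Complex.I = -1 := Complex.I_mul_I
  linear_combination (-1 : ℂ) * h3 + (-(Complex.exp (x * Complex.I) * Complex.exp (x * Complex.I)) +
    Complex.exp (-x * Complex.I) * Complex.exp (x * Complex.I)) * h5

/-- the real factor -/
def rr (n a i : ℕ) : ℝ := sn n (a * (2 * i + 1)) / sn n (2 * a * (i + 1))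

theorem factor (a i : ℕ) : (1 - ζ n ^ (a * (2 * i + 1))) / (1 - ζ n ^ (2 * a * (i + 1))) =
    (rr n a i : ℂ) / w n ^ a := by
  rw [one_sub_ζ, one_sub_ζ, rr]
  have e : 2 * a * (i + 1) = a * (2 * i + 1) + a := by ring
  have hw : w n ^ (2 * a * (i + 1)) = w n ^ (a * (2 * i + 1)) * w n ^ a := by rw [e, pow_add]
  rw [hw]
  push_cast
  by_cases h0 : (sn n (2 * a * (i + 1)) : ℂ) = 0
  · rw [h0]; simp
  · have h1 : w n ^ (a * (2 * i + 1)) ≠ 0 := pow_ne_zero _ w_ne
    have h2 : w n ^ a ≠ 0 := pow_ne_zero _ w_ne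
    have hI : Complex.I ≠ 0 := Complex.I_ne_zero
    field_simp

/-- the ratio of consecutive terms at the root of unity -/
def s (n i : ℕ) : ℝ := rr n 1 i ^ 2 * rr n 2 i

/-- the terms at the root of unity -/
def u (n k : ℕ) : ℝ := ∏ i ∈ range k, s n i

theorem ev_T (hn : 0 < n) (c1 : Cop n 1) (c2 : Cop n 2) (t : ℤ) {k : ℕ} (hk : k < n) :
    ev (ζ n) (T n (0, t) k) = (u n k : ℂ) := by
  have hz := ζ_root hn
  have m1 := WW_mem hn c1 t hk
  have m2 := WW_mem hn c2 (2 * t) hk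
  rw [T_zero, ev_mul hz (pow_mem (pow_mem q_mem _) _) (mul_mem (pow_mem m1 2) m2),
    ev_pow hz (pow_mem q_mem _), ev_pow hz q_mem, ev_q, ev_mul hz (pow_mem m1 2) m2,
    ev_pow hz m1, ev_WW hn hz (ζ_pow hn) c1 t hk, ev_WW hn hz (ζ_pow hn) c2 _ hk]
  simp only [factor]
  rw [Finset.prod_div_distrib, Finset.prod_div_distrib, prod_const, prod_const, card_range, u]
  have e1 : ((∏ i ∈ range k, s n i : ℝ) : ℂ) =
      (∏ i ∈ range k, (rr n 1 i : ℂ)) ^ 2 * ∏ i ∈ range k, (rr n 2 i : ℂ) := by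
    rw [← Finset.prod_pow, ← Finset.prod_mul_distrib]
    push_cast [s]
    rfl
  rw [e1, ζ_eq]
  have h1 : w n ≠ 0 := w_ne
  have e2 : ((w n ^ 2) ^ 2) ^ k = (w n ^ 1) ^ k * (w n ^ 1) ^ k * (w n ^ 2) ^ k := by
    rw [← pow_mul, ← pow_mul, ← pow_mul, ← pow_mul, ← pow_add, ← pow_add]; congr 1; ring
  rw [e2]
  have h2 : (w n ^ 1) ^ k ≠ 0 := pow_ne_zero _ (pow_ne_zero _ h1)
  have h3 : (w n ^ 2) ^ k ≠ 0 := pow_ne_zero _ (pow_ne_zero _ h1)
  generalize (w n ^ 1) ^ k = X1 at *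
  generalize (w n ^ 2) ^ k = X2 at *
  field_simp

/-! ### signs -/

theorem sn_pos {m : ℕ} (h0 : 0 < m) (h1 : m < n) : 0 < sn n m := by
  have hn : (0 : ℝ) < n := by exact_mod_cast h0.trans h1
  apply Real.sin_pos_of_pos_of_lt_pi
  · positivity
  · rw [div_lt_iff₀ hn, mul_comm]
    have : (m : ℝ) < n := by exact_mod_cast h1
    exact mul_lt_mul_of_pos_left this Real.pi_pos

theorem sn_neg {m : ℕ} (h0 : n < m) (h1 : m < 2 * n) : sn n m < 0 := by
  have hn' : 0 < n := by omega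
  have hn : (0 : ℝ) < n := by exact_mod_cast hn'
  have h2 := sn_pos (n := n) (m := m - n) (by omega) (by omega)
  rw [sn, Nat.cast_sub h0.le] at h2
  have e : ((m : ℝ) - n) * Real.pi / n = m * Real.pi / n - Real.pi := by field_simp
  rw [e, Real.sin_sub_pi] at h2
  rw [sn]; linarith

theorem sn_self (hn : 0 < n) : sn n n = 0 := by
  have : (0 : ℝ) < n := by exact_mod_cast hn
  rw [sn, show (n : ℝ) * Real.pi / n = Real.pi by field_simp, Real.sin_pi]

variable {h : ℕ}

theorem rr1_pos (hh : n = 2 * h + 1) {i : ℕ} (hi : i < h) : 0 < rr n 1 i := by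
  rw [rr]
  exact div_pos (sn_pos (by omega) (by omega)) (sn_pos (by omega) (by omega))

theorem s_pos (hh : n = 2 * h + 1) {i : ℕ} (hi : i < h) (h3 : n ≠ 4 * i + 3) : 0 < s n i := by
  rw [s]
  refine mul_pos (pow_pos (rr1_pos hh hi) 2) ?_
  rw [rr]
  rcases lt_or_ge (4 * i + 3) n with h1 | h1
  · exact div_pos (sn_pos (by omega) (by omega)) (sn_pos (by omega) (by omega))
  · exact div_pos_of_neg_of_neg (sn_neg (by omega) (by omega)) (sn_neg (by omega) (by omega))

theorem s_neg (hh : n = 2 * h + 1) {i : ℕ} (hi : i < h) (h3 : n = 4 * i + 3) : s n i < 0 := by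
  rw [s]
  refine mul_neg_of_pos_of_neg (pow_pos (rr1_pos hh hi) 2) ?_
  rw [rr]
  exact div_neg_of_pos_of_neg (sn_pos (by omega) (by omega)) (sn_neg (by omega) (by omega))

theorem s_zero (hh : n = 2 * h + 1) : s n h = 0 := by
  rw [s, rr, show 1 * (2 * h + 1) = n by omega, sn_self (by omega), zero_div]
  simp

theorem u_succ (k : ℕ) : u n (k + 1) = u n k * s n k := by rw [u, prod_range_succ, u]

theorem u_zero : u n 0 = 1 := by simp [u]

theorem u_big (hh : n = 2 * h + 1) {k : ℕ} (hk : h < k) : u n k = 0 := by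
  rw [u]
  exact prod_eq_zero (mem_range.2 hk) (s_zero hh)

theorem u_pos_one (hh : n = 2 * h + 1) (hm : n % 4 = 1) {k : ℕ} (hk : k ≤ h) : 0 < u n k := by
  rw [u]
  refine prod_pos fun i hi => s_pos hh ?_ (by omega)
  have := mem_range.1 hi
  omega

theorem u_nonneg_one (hh : n = 2 * h + 1) (hm : n % 4 = 1) (k : ℕ) : 0 ≤ u n k := by
  rcases le_or_gt k h with hk | hk
  · exact (u_pos_one hh hm hk).le
  · rw [u_big hh hk]

variable {m : ℕ}

theorem u_pos_three (hh : n = 2 * h + 1) (hm : n = 4 * m + 3) {k : ℕ} (hk : k ≤ m) : 0 < u n k := by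
  rw [u]
  refine prod_pos fun i hi => ?_
  have := mem_range.1 hi
  exact s_pos hh (by omega) (by omega)

theorem u_neg_three (hh : n = 2 * h + 1) (hm : n = 4 * m + 3) {k : ℕ} (hk : m < k) (hk2 : k ≤ h) :
    u n k < 0 := by
  induction k with
  | zero => omega
  | succ k ih =>
    rw [u_succ]
    rcases Nat.lt_or_ge m k with h1 | h1
    · exact mul_neg_of_neg_of_pos (ih h1 (by omega)) (s_pos hh (by omega) (by omega))
    · have e : k = m := by omega
      subst e
      exact mul_neg_of_pos_of_neg (u_pos_three hh hm le_rfl) (s_neg hh (by omega) hm)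

/-- the partial sums at the root of unity -/
def U (n k : ℕ) : ℝ := ∑ i ∈ range k, u n i

theorem U_pos_one (hh : n = 2 * h + 1) (hm : n % 4 = 1) (k : ℕ) : 0 < U n (k + 1) := by
  rw [U, sum_range_succ']
  have h1 : 0 ≤ ∑ i ∈ range k, u n (i + 1) := sum_nonneg fun i _ => u_nonneg_one hh hm _
  rw [u_zero]
  linarith

theorem U_half (hh : n = 2 * h + 1) (hm : n = 4 * m + 3) : U n (h + 1) = 0 := by
  have hn : 0 < n := by omega
  have hz := ζ_root hn
  have h1 := ev_I hz ((Gh_van hm hh 0).mono (by norm_num : 1 ≤ 2))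
  rw [Gh, ev_sum hz (fun k hk => by
    have := mem_range.1 hk
    rw [T_zero]
    exact mul_mem (pow_mem (pow_mem q_mem _) _) (mul_mem
      (pow_mem (WW_mem hn (cop1 hm) 0 (by omega)) 2) (WW_mem hn (cop2 hm) _ (by omega))))] at h1
  rw [sum_congr rfl (fun k hk => ev_T hn (cop1 hm) (cop2 hm) 0
    (show k < n by have := mem_range.1 hk; omega))] at h1
  rw [U]
  exact_mod_cast h1

theorem U_full (hh : n = 2 * h + 1) (hm : n = 4 * m + 3) : U n n = 0 := by
  rw [← U_half hh hm, U, U, ← Finset.sum_range_add_sum_Ico _ (show h + 1 ≤ n by omega)]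
  rw [sum_eq_zero (s := Ico (h + 1) n), add_zero]
  intro k hk
  rw [mem_Ico] at hk
  exact u_big hh (by omega)

theorem U_pos_three (hh : n = 2 * h + 1) (hm : n = 4 * m + 3) {j : ℕ} (hj : j < h) :
    0 < U n (j + 1) := by
  rcases Nat.lt_or_ge m j with h1 | h1
  · have h2 := U_half hh hm
    rw [U, ← Finset.sum_range_add_sum_Ico _ (show j + 1 ≤ h + 1 by omega)] at h2
    have h3 : ∑ i ∈ Ico (j + 1) (h + 1), u n i < 0 := by
      refine sum_neg (fun i hi => ?_) ⟨h, ?_⟩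
      · rw [mem_Ico] at hi
        exact u_neg_three hh hm (by omega) (by omega)
      · rw [mem_Ico]; omega
    rw [U]
    linarith
  · rw [U]
    refine sum_pos (fun i hi => ?_) ⟨0, mem_range.2 (by omega)⟩
    have := mem_range.1 hi
    exact u_pos_three hh hm (by omega)

/-! ### the constants in front of the blocks -/

theorem cop1' (hh : n = 2 * h + 1) : Cop n 1 := ⟨1, -h, by rw [hh]; push_cast; ring⟩
theorem cop2' (hh : n = 2 * h + 1) : Cop n 2 := ⟨n, -(h ^ 2 + h), by rw [hh]; push_cast; ring⟩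

theorem key_pos {b a : ℕ} {v : ℤ} (hn0 : 0 < n) (hcop : IsCoprime (n : ℤ) (b : ℤ))
    (hv : 0 < v) (hb : (a : ℤ) + b * h = n * v) (hbp : 0 < b) (hh : n = 2 * h + 1) (j : ℕ) :
    ∃ x : ℝ, 0 < x ∧
      ev (ζ n) (poch (q ^ (b : ℤ)) (q ^ (a : ℤ)) (j * n) / poch (q ^ (b : ℤ)) (q ^ (b : ℤ)) (j * n)) =
        (x : ℂ) := by
  have hz := ζ_root hn0
  have hhz : (n : ℤ) = 2 * h + 1 := by exact_mod_cast hh
  have en : ((n - 1 : ℕ) : ℤ) = n - 1 := by rw [Nat.cast_sub hn0]; simp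
  induction j with
  | zero => exact ⟨1, one_pos, by simp [ev_one]⟩
  | succ j ih =>
    obtain ⟨x, hx, hx2⟩ := ih
    have hB : ∀ a : ℤ, (q ^ a : RatFunc ℚ) * (q ^ (b : ℤ)) ^ (j * n) = q ^ (a + b * (j * n)) := by
      intro a
      rw [qz_pow, ← zpow_add₀ q_ne]
      push_cast
      rfl
    have key := cyc_ratio hn0 (β := b) (a := a + b * (j * n)) (d := b + b * (j * n))
      (e0 := b * j + v) (e1 := b * j + b) (j := h) (j' := n - 1) (by omega) (by omega)
      (by linear_combination hb) (by rw [en]; ring) hcop (by positivity)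
    rw [show (j + 1) * n = j * n + n by ring, poch_add, poch_add, hB, hB, mul_div_mul_comm,
      ev_mul hz (key_mem hn0 hcop hv hb hbp hh j) key.1, hx2]
    have hU : IsU n (((b * j + b : ℤ) : RatFunc ℚ)) := intCast_U hn0 (by positivity)
    have hU2 : (((b * j + v : ℤ) : RatFunc ℚ)) ∈ R n := (intCast_U hn0 (by positivity)).2.1
    have hm : (((b * j + v : ℤ) : RatFunc ℚ)) / ((b * j + b : ℤ) : RatFunc ℚ) ∈ R n := by
      rw [div_eq_mul_inv]; exact mul_mem hU2 hU.2.2
    have h3 := ev_congr hz hm key.2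
    rw [h3, div_eq_mul_inv, ev_mul hz hU2 hU.2.2, ev_U hz hU, ev_intCast, ev_intCast]
    refine ⟨x * (((b * j + v : ℤ) : ℝ) * ((b * j + b : ℤ) : ℝ)⁻¹), ?_, ?_⟩
    · have h4 : (0 : ℝ) < ((b * j + v : ℤ) : ℝ) := by
        have : (0 : ℤ) < b * j + v := by positivity
        exact_mod_cast this
      have h5 : (0 : ℝ) < ((b * j + b : ℤ) : ℝ) := by
        have : (0 : ℤ) < b * j + b := by positivity
        exact_mod_cast this
      positivity
    · push_cast; ring

theorem pre_mem' (hh : n = 2 * h + 1) (j : ℕ) : pre n j ∈ R n := by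
  have hn0 : 0 < n := by omega
  have hhz : (n : ℤ) = 2 * h + 1 := by exact_mod_cast hh
  have k1 := key_mem (b := 2 * 1) (a := 1) (u := 1) hn0 (cop1' hh) (by norm_num)
    (by push_cast; linear_combination -hhz) (by norm_num) hh j
  have k2 := key_mem (b := 2 * 2) (a := 2) (u := 2) hn0 (cop2' hh) (by norm_num)
    (by push_cast; linear_combination -2 * hhz) (by norm_num) hh j
  exact mul_mem (pow_mem (pow_mem q_mem _) _) (mul_mem (pow_mem k1 2) k2)

theorem pre_pos (hh : n = 2 * h + 1) (j : ℕ) : ∃ x : ℝ, 0 < x ∧ ev (ζ n) (pre n j) = (x : ℂ) := by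
  have hn0 : 0 < n := by omega
  have hz := ζ_root hn0
  have hhz : (n : ℤ) = 2 * h + 1 := by exact_mod_cast hh
  have k1 := key_mem (b := 2 * 1) (a := 1) (u := 1) hn0 (cop1' hh) (by norm_num)
    (by push_cast; linear_combination -hhz) (by norm_num) hh j
  have k2 := key_mem (b := 2 * 2) (a := 2) (u := 2) hn0 (cop2' hh) (by norm_num)
    (by push_cast; linear_combination -2 * hhz) (by norm_num) hh j
  obtain ⟨x1, hx1, e1⟩ := key_pos (b := 2 * 1) (a := 1) (v := 1) hn0 (cop1' hh) (by norm_num)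
    (by push_cast; linear_combination -hhz) (by norm_num) hh j
  obtain ⟨x2, hx2, e2⟩ := key_pos (b := 2 * 2) (a := 2) (v := 2) hn0 (cop2' hh) (by norm_num)
    (by push_cast; linear_combination -2 * hhz) (by norm_num) hh j
  refine ⟨x1 ^ 2 * x2, by positivity, ?_⟩
  have e3 := ev_mul hz (pow_mem (pow_mem (q_mem (n := n)) 2) (j * n))
    (mul_mem (pow_mem k1 2) k2)
  have e4 : ev (ζ n) (((q : RatFunc ℚ) ^ 2) ^ (j * n)) = 1 := by
    rw [ev_pow hz (pow_mem q_mem _), ev_pow hz q_mem, ev_q, ← pow_mul,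
      show 2 * (j * n) = n * (2 * j) by ring, pow_mul, ζ_pow hn0, one_pow]
  rw [e4, one_mul, ev_mul hz (pow_mem k1 2) k2, ev_pow hz k1, e1, e2] at e3
  rw [show pre n j = ((q : RatFunc ℚ) ^ 2) ^ (j * n) * _ from rfl]
  refine e3.trans ?_
  push_cast; rfl

theorem T_mem' (hh : n = 2 * h + 1) (t : ℤ) {k : ℕ} (hk : k < n) : T n (0, t) k ∈ R n := by
  rw [T_zero]
  exact mul_mem (pow_mem (pow_mem q_mem _) _) (mul_mem
      (pow_mem (WW_mem (by omega) (cop1' hh) t hk) 2) (WW_mem (by omega) (cop2' hh) _ hk))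

theorem tt_mem (hh : n = 2 * h + 1) (k : ℕ) : tt k ∈ R n := by
  have hn0 : 0 < n := by omega
  have e : k = k / n * n + k % n := (Nat.div_add_mod' k n).symm
  rw [e, tt_block]
  exact mul_mem (pre_mem' hh _) (T_mem' hh _ (Nat.mod_lt _ hn0))

theorem ev_block (hh : n = 2 * h + 1) (r : ℕ) {j : ℕ} (hj : j ≤ n) {x : ℝ}
    (hx : ev (ζ n) (pre n r) = (x : ℂ)) :
    ev (ζ n) (∑ k ∈ range j, tt (r * n + k)) = ((x * U n j : ℝ) : ℂ) := by
  have hn0 : 0 < n := by omega
  have hz := ζ_root hn0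
  rw [ev_sum hz fun k _ => tt_mem hh _, U, mul_sum, Complex.ofReal_sum]
  refine sum_congr rfl fun k hk => ?_
  have hk' : k < n := by have := mem_range.1 hk; omega
  rw [tt_block, ev_mul hz (pre_mem' hh r) (T_mem' hh _ hk'), hx,
    ev_T hn0 (cop1' hh) (cop2' hh) _ hk', Complex.ofReal_mul]

theorem ev_full (hh : n = 2 * h + 1) (r : ℕ) :
    ∃ x : ℝ, 0 ≤ x ∧ ev (ζ n) (∑ k ∈ range (r * n), tt k) = ((x * U n n : ℝ) : ℂ) := by
  have hn0 : 0 < n := by omega
  have hz := ζ_root hn0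
  induction r with
  | zero => exact ⟨0, le_rfl, by simp [ev_zero]⟩
  | succ r ih =>
    obtain ⟨x, hx, e⟩ := ih
    obtain ⟨y, hy, e2⟩ := pre_pos hh r
    refine ⟨x + y, by positivity, ?_⟩
    rw [show (r + 1) * n = r * n + n by ring, sum_range_add, ev_add hz
      (sum_mem fun k _ => tt_mem hh _) (sum_mem fun k _ => tt_mem hh _), e,
      ev_block hh r le_rfl e2]
    push_cast; ring

theorem ev_S (hh : n = 2 * h + 1) (N : ℕ) :
    ∃ x y : ℝ, 0 ≤ x ∧ 0 < y ∧
      ev (ζ n) (∑ k ∈ range (N + 1), tt k) = ((x * U n n + y * U n (N % n + 1) : ℝ) : ℂ) := by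
  have hn0 : 0 < n := by omega
  have hz := ζ_root hn0
  obtain ⟨x, hx, e⟩ := ev_full hh (N / n)
  obtain ⟨y, hy, e2⟩ := pre_pos hh (N / n)
  refine ⟨x, y, hx, hy, ?_⟩
  have e3 : N + 1 = N / n * n + (N % n + 1) := by
    have := Nat.div_add_mod' N n
    omega
  rw [e3, sum_range_add, ev_add hz
      (sum_mem fun k _ => tt_mem hh _) (sum_mem fun k _ => tt_mem hh _), e,
      ev_block hh (N / n) (Nat.mod_lt N hn0) e2]
  push_cast
  congr 3

/-- the sum is not divisible by `Φ_n` outside the range -/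
theorem not_I (hn : Odd n) (N : ℕ) (hN : ¬ (n % 4 = 3 ∧ (n - 1) / 2 ≤ N % n)) :
    ev (ζ n) (∑ k ∈ range (N + 1), tt k) ≠ 0 := by
  obtain ⟨h, hh⟩ := hn
  have hn0 : 0 < n := by omega
  obtain ⟨x, y, hx, hy, e⟩ := ev_S hh N
  rw [e]
  have : 0 < x * U n n + y * U n (N % n + 1) := by
    rcases (by omega : n % 4 = 1 ∨ n % 4 = 3) with h1 | h3
    · have a1 : 0 < U n n := by
        have := U_pos_one hh h1 (n - 1)
        rwa [Nat.sub_add_cancel hn0] at this
      have a2 := U_pos_one hh h1 (N % n)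
      positivity
    · obtain ⟨m, hm⟩ : ∃ m, n = 4 * m + 3 := ⟨n / 4, by omega⟩
      have a1 := U_full hh hm
      have a2 : 0 < U n (N % n + 1) := U_pos_three hh hm (by
        by_contra hcon
        exact hN ⟨h3, by omega⟩)
      rw [a1, mul_zero, zero_add]
      positivity
  exact_mod_cast this.ne'

/-- the sum is divisible by `Φ_n²` inside the range -/
theorem yes_I (hh : n = 2 * h + 1) (hm : n = 4 * m + 3) (N : ℕ) (hN : h ≤ N % n) :
    I n 2 (∑ k ∈ range (N + 1), tt k) := by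
  have hn0 : 0 < n := by omega
  have hlt := Nat.mod_lt N hn0
  have e3 : N + 1 = N / n * n + (h + 1) + (N % n - h) := by
    have := Nat.div_add_mod' N n
    omega
  rw [e3, sum_range_add]
  refine (sum_half hm hh (N / n)).add (I.sum fun k hk => ?_)
  have hk' := mem_range.1 hk
  rw [show N / n * n + (h + 1) + k = N / n * n + (h + 1 + k) by ring, tt_block]
  exact I.R_mul (pre_mem' hh _) (T0_small hm hh _ (by omega) (by omega))

end

end KS6_51.QT
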